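import Pool.Agent.H77.YBEFree

set_option autoImplicit false

open Pool.Agent.H77.YBE

/-- For every non-empty set `X` the free solution on `X` (it exists, and is unique up to
isomorphism by its universal property) is not an injective solution. -/
theorem Pool.Agent.Results.MP_f0defb_al.NotInjective.result (X : Type) [Nonempty X] :
    ∃ (F : Type) (s : Sol F) (i : X → F),
      IsFree s i ∧ ¬ Function.Injective (toStructureGroup s) :=
  ⟨_, fsol X, _, fsol_free X, not_inj _ _ (fsol_free X)⟩
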